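import Pool.Agent.helper61.DL.Defs4
import Pool.Agent.helper68.DL.L1
import Pool.Agent.helper68.DL.L2
import Pool.Agent.helper19.DL.Laplace

set_option autoImplicit false
set_option linter.unusedVariables false
set_option linter.unusedSectionVars false

/-! # A face: comparison of two subdivisions of the dual cone -/

namespace Pool.Agent.helper24.DL

open Finset Filter Topology Pool.Agent.helper61.DL Pool.Agent.helper14.NS

theorem dot_hv {n : ℕ} (k : Fin (n + 1) → ℝ) (h : ℝ) (v : Fin n → ℝ) :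
    k ⬝ᵥ hv h v = -(k 0 * h) + ∑ i, k i.succ * v i := by
  simp [hv, dotProduct, Fin.sum_univ_succ]

theorem dot_cons {n : ℕ} (k : Fin (n + 1) → ℝ) (s : ℝ) (ξ : Fin n → ℝ) :
    k ⬝ᵥ (Fin.cons s ξ : Fin (n + 1) → ℝ) = k 0 * s + ∑ i, k i.succ * ξ i := by
  simp [dotProduct, Fin.sum_univ_succ]

theorem adet_reindex {κ κ' : Type} [Fintype κ] [Fintype κ'] {M : ℕ} (e : κ ≃ κ')
    (w : κ' → Fin M → ℝ) : adet (w ∘ e) = adet w := by
  classical
  by_cases h : Fintype.card κ' = M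
  · have e₀ := Fintype.equivFinOfCardEq h
    rw [adet_eq w e₀, adet_eq (w ∘ e) (e.trans e₀)]
    congr 3
    ext i j
    simp
  · have h' : ¬ Fintype.card κ = M := by rwa [Fintype.card_congr e]
    rw [adet, adet, dif_neg h, dif_neg h']

theorem pos_dot {n : ℕ} {k : Fin (n + 1) → ℝ} (hk : ∀ i, 0 ≤ k i) (hne : k ≠ 0) {s : ℝ}
    {ξ : Fin n → ℝ} (hs : 0 < s) (hξ : ∀ i, 0 < ξ i) :
    0 < k ⬝ᵥ (Fin.cons s ξ : Fin (n + 1) → ℝ) := by
  obtain ⟨i, hi⟩ := Function.ne_iff.1 hne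
  have hi' : 0 < k i := lt_of_le_of_ne (hk i) (Ne.symm hi)
  have hy : ∀ i, 0 < (Fin.cons s ξ : Fin (n + 1) → ℝ) i := by
    intro i
    refine Fin.cases ?_ (fun j => ?_) i
    · exact hs
    · exact hξ j
  exact Finset.sum_pos' (fun j _ => mul_nonneg (hk j) (hy j).le)
    ⟨i, Finset.mem_univ _, mul_pos hi' (hy i)⟩

/-- independence of integral vectors -/
theorem li_int {κ : Type} {M : ℕ} (w : κ → Fin M → ℤ)
    (hw : LinearIndependent ℝ (fun k (i : Fin M) => (w k i : ℝ))) : LinearIndependent ℤ w := by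
  have h1 : LinearIndependent ℤ (fun k (i : Fin M) => (w k i : ℝ)) := by
    apply hw.restrict_scalars
    intro a b h
    simpa using h
  let φ : (Fin M → ℤ) →ₗ[ℤ] (Fin M → ℝ) :=
    ((Int.castAddHom ℝ).toIntLinearMap).compLeft (Fin M)
  exact LinearIndependent.of_comp φ h1

/-- orthogonal families -/
theorem li_orth {κ κ' : Type} {n : ℕ} (w : κ → Fin n → ℝ) (w' : κ' → Fin n → ℝ)
    (hw : LinearIndependent ℝ w) (hw' : LinearIndependent ℝ w')
    (h : ∀ i j, w i ⬝ᵥ w' j = 0) : LinearIndependent ℝ (Sum.elim w w') := by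
  apply LinearIndependent.sum_type hw hw'
  rw [Submodule.disjoint_def]
  intro x hx hx'
  have h1 : ∀ z ∈ Submodule.span ℝ (Set.range w'), x ⬝ᵥ z = 0 := by
    intro z hz
    refine Submodule.span_induction (p := fun z _ => x ⬝ᵥ z = 0) ?_ (dotProduct_zero x) ?_ ?_ hz
    · rintro _ ⟨j, rfl⟩
      refine Submodule.span_induction (p := fun x _ => x ⬝ᵥ w' j = 0) ?_ (zero_dotProduct _) ?_ ?_
        hx
      · rintro _ ⟨i, rfl⟩
        exact h i j
      · intro a b _ _ ha hb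
        rw [add_dotProduct, ha, hb, add_zero]
      · intro r a _ ha
        rw [smul_dotProduct, ha, smul_zero]
    · intro a b _ _ ha hb
      rw [dotProduct_add, ha, hb, add_zero]
    · intro r a _ ha
      rw [dotProduct_smul, ha, smul_zero]
  exact dotProduct_self_eq_zero.1 (h1 x hx')

/-- dual vectors of a linearly independent family -/
theorem exists_dual {n : ℕ} {κ : Type} [Fintype κ] [DecidableEq κ] (w : κ → Fin n → ℝ)
    (hw : LinearIndependent ℝ w) :
    ∃ c : κ → Fin n → ℝ, ∀ u v, c u ⬝ᵥ w v = if u = v then 1 else 0 := by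
  have h1 : ∀ u, ∃ c : Fin n → ℝ, ∀ v, c ⬝ᵥ w v = if u = v then 1 else 0 := by
    intro u
    obtain ⟨g, hg⟩ := LinearMap.exists_extend
      ((Finsupp.lapply u : (κ →₀ ℝ) →ₗ[ℝ] ℝ).comp hw.repr)
    refine ⟨fun i => g (Pi.single i 1), fun v => ?_⟩
    have h2 : (fun i => g (Pi.single i 1)) ⬝ᵥ w v = g (w v) := by
      conv_rhs => rw [pi_eq_sum_univ' (w v)]
      rw [map_sum, dotProduct]
      apply Finset.sum_congr rfl
      intro i _
      rw [map_smul, smul_eq_mul, mul_comm]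
    rw [h2]
    have h3 : w v ∈ Submodule.span ℝ (Set.range w) := Submodule.subset_span ⟨v, rfl⟩
    have h4 := congrArg (fun (φ : Submodule.span ℝ (Set.range w) →ₗ[ℝ] ℝ) => φ ⟨w v, h3⟩) hg
    simp only [LinearMap.comp_apply, Submodule.subtype_apply] at h4
    rw [h4, hw.repr_eq_single v ⟨w v, h3⟩ rfl, Finsupp.lapply_apply, Finsupp.single_apply]
    simp [eq_comm]
  choose c hc using h1
  exact ⟨c, hc⟩

section

variable {n : ℕ} {ι : Type} [Fintype ι] [DecidableEq ι] {V : ι → Fin n →₀ ℕ}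

/-- the homogenised weight -/
noncomputable def hom (V : ι → Fin n →₀ ℕ) (a : Fin n → ℕ) : Fin (n + 1) → ℝ :=
  Fin.cons (ordI V a : ℝ) (fun i => (a i : ℝ))

/-- the homogenised weight -/
noncomputable def homZ (V : ι → Fin n →₀ ℕ) (a : Fin n → ℕ) : Fin (n + 1) → ℤ :=
  Fin.cons (ordI V a : ℤ) (fun i => (a i : ℤ))

theorem hom_zero (a : Fin n → ℕ) : hom V a 0 = ordI V a := rfl

theorem hom_succ (a : Fin n → ℕ) (i : Fin n) : hom V a i.succ = a i := rfl

theorem homZ_cast (a : Fin n → ℕ) (i : Fin (n + 1)) : ((homZ V a i : ℤ) : ℝ) = hom V a i := by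
  refine Fin.cases ?_ (fun j => ?_) i
  · simp [hom, homZ]
  · simp [hom, homZ]

theorem ord_eq {G : Finset ι} {a : Fin n → ℕ}
    (ha : ∀ v ∈ G, ∀ u, ∑ i, a i * V v i ≤ ∑ i, a i * V u i) {v : ι} (hv : v ∈ G) :
    ordI V a = ∑ i, a i * V v i := by
  apply le_antisymm
  · exact Nat.sInf_le ⟨v, rfl⟩
  · have hne : {N | ∃ v, N = ∑ i, a i * V v i}.Nonempty := ⟨_, v, rfl⟩
    obtain ⟨u, hu⟩ := Nat.sInf_mem hne
    change ∑ i, a i * V v i ≤ sInf {N | ∃ v, N = ∑ i, a i * V v i}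
    rw [hu]
    exact ha v hv u

theorem hom_dot (a : Fin n → ℕ) (u : ι) :
    hom V a ⬝ᵥ hv 1 (rV V u) = ((∑ i, a i * V u i : ℕ) : ℝ) - ordI V a := by
  rw [dot_hv, hom_zero]
  simp only [hom_succ, rV]
  push_cast
  ring

end

theorem face_eq {n : ℕ} (hn : 0 < n) {ι : Type} [Fintype ι] [DecidableEq ι]
    {V : ι → Fin n →₀ ℕ} (hV : Function.Injective V)
    (hconv : ∀ j : Fin n, ∃ i, 0 < V i j ∧ ∀ j', j' ≠ j → V i j' = 0) (hV0 : ∀ i, V i ≠ 0)
    (G : Finset ι) (hG : G ∈ facesI V) (S : Finset (Finset (Fin n → ℕ))) (hS : SubI V G S)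
    (F : Finset ι) (hFG : F ⊆ G) (hcard : F.card = fdim (ex V G) + 1)
    (hli : LinearIndependent ℝ (fun v : {v // v ∈ F} => rV V v))
    (htau : ∀ u ∈ G, hv 1 (rV V u) ∈
      Submodule.span ℝ ((fun v => hv 1 (rV V v)) '' (F : Set ι)))
    (s : ℝ) (ξ : Fin n → ℝ) (hs : 0 < s) (hξ : ∀ i, 0 < ξ i) (R : ℝ) {ℓ : ℕ} {β : Type}
    [Fintype β] (hℓ : ℓ + F.card = n + 1)
    (D : β → Fin ℓ → Fin (n + 1) → ℝ) (hD : Dec (rV V) F s ξ R D) :
    jayI V S s ξ = nvol (ex V F) * R := by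
  classical
  have hcardS : ∀ δ ∈ S, δ.card = ℓ := by
    intro δ hδ
    have := hS.card δ hδ
    omega
  have hFne : F.Nonempty := by
    rw [← Finset.card_pos]
    omega
  obtain ⟨v₀, hv₀⟩ := hFne
  have hFn : F.card ≤ n := by
    have h1 := hli.fintype_card_le_finrank
    simpa using h1
  have hℓ1 : 1 ≤ ℓ := by omega
  -- the dual basis
  obtain ⟨c, hc⟩ := exists_dual _ hli
  let b : ι → Fin (n + 1) → ℝ := fun u =>
    if h : u ∈ F then Fin.cons 0 (c ⟨u, h⟩) else 0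
  have hb : ∀ u ∈ F, ∀ v ∈ F, b u ⬝ᵥ hv 1 (rV V v) = if u = v then 1 else 0 := by
    intro u hu v hv
    rw [dot_hv]
    simp only [b, dif_pos hu]
    have h1 := hc ⟨u, hu⟩ ⟨v, hv⟩
    rw [dotProduct] at h1
    simp only [Fin.cons_zero, Fin.cons_succ, zero_mul, neg_zero, zero_add]
    rw [h1]
    simp
  -- enumerations
  let f : Fin F.card ≃ {v // v ∈ F} := F.equivFin.symm
  let e : ∀ δ : {δ // δ ∈ S}, Fin ℓ ≃ {a // a ∈ δ.1} := fun δ =>
    (Finset.equivFinOfCardEq (hcardS δ.1 δ.2)).symm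
  let D' : {δ // δ ∈ S} → Fin ℓ → Fin (n + 1) → ℝ := fun δ j => hom V (e δ j).1
  let v : Fin F.card → Fin (n + 1) → ℝ := fun k => hv 1 (rV V (f k).1)
  let b' : Fin F.card → Fin (n + 1) → ℝ := fun k => b (f k).1
  let y : Fin (n + 1) → ℝ := Fin.cons s ξ
  have hb' : ∀ k k', b' k ⬝ᵥ v k' = if k = k' then 1 else 0 := by
    intro k k'
    rw [hb _ (f k).2 _ (f k').2]
    by_cases h : k = k'
    · rw [if_pos h, if_pos (by rw [h])]
    · rw [if_neg h, if_neg]
      intro h2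
      exact h (f.injective (Subtype.ext h2))
  -- orthogonality
  have hordG : ∀ δ ∈ S, ∀ a ∈ δ, ∀ u ∈ G, ordI V a = ∑ i, a i * V u i := fun δ hδ a ha u hu =>
    ord_eq (hS.face δ hδ a ha) hu
  have hhom0 : ∀ δ ∈ S, ∀ a ∈ δ, ∀ u ∈ G, hom V a ⬝ᵥ hv 1 (rV V u) = 0 := by
    intro δ hδ a ha u hu
    rw [hom_dot, hordG δ hδ a ha u hu, sub_self]
  have hhom1 : ∀ δ ∈ S, ∀ a ∈ δ, ∀ u, 0 ≤ hom V a ⬝ᵥ hv 1 (rV V u) := by
    intro δ hδ a ha u
    rw [hom_dot, hordG δ hδ a ha v₀ (hFG hv₀), sub_nonneg]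
    exact_mod_cast hS.face δ hδ a ha v₀ (hFG hv₀) u
  have hane : ∀ δ ∈ S, ∀ a ∈ δ, a ≠ 0 := by
    rintro δ hδ a ha rfl
    have := (hS.indep δ hδ).ne_zero ⟨0, ha⟩
    apply this
    ext i
    simp
  have hliδ : ∀ δ ∈ S, LinearIndependent ℝ (fun a : δ => hom V a.1) := by
    intro δ hδ
    have h1 := hS.indep δ hδ
    let π : (Fin (n + 1) → ℝ) →ₗ[ℝ] (Fin n → ℝ) := LinearMap.funLeft ℝ ℝ Fin.succ
    apply LinearIndependent.of_comp π
    exact h1
  -- the value
  have hval : ∑ x, adet (Sum.elim (D x) b') / ∏ j, (D x j ⬝ᵥ y) = R := by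
    rw [← hD.val b hb]
    apply Finset.sum_congr rfl
    intro x _
    congr 1
    rw [← adet_reindex (Equiv.sumCongr (Equiv.refl (Fin ℓ)) f)]
    congr 1
    funext z
    rcases z with z | z <;> rfl
  have hhomne : ∀ δ ∈ S, ∀ a ∈ δ, hom V a ≠ 0 := by
    intro δ hδ a ha h
    apply hane δ hδ a ha
    ext i
    have h1 := congrFun h i.succ
    rw [hom_succ] at h1
    change (a i : ℝ) = 0 at h1
    change a i = 0
    exact_mod_cast h1
  have hhomnn : ∀ a i, 0 ≤ hom V a i := by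
    intro a i
    refine Fin.cases ?_ (fun j => ?_) i
    · rw [hom_zero]
      positivity
    · rw [hom_succ]
      positivity
  -- sums over the enumeration
  have hsum : ∀ (δ : {δ // δ ∈ S}) (t : (Fin n → ℕ) → ℝ),
      ∑ j, t (e δ j).1 • hom V (e δ j).1 = ∑ a ∈ δ.1, t a • hom V a := by
    intro δ t
    rw [← Finset.sum_coe_sort δ.1, ← Equiv.sum_comp (e δ)]
  have hmain := Pool.Agent.helper19.DL.laplace_unique (ℓ := ℓ) (m := F.card) (M := n + 1) hℓ D D'
    v b' y hb' ?_ ?_ hD.li ?_ ?_ ?_ ?_ ?_ hD.disj ?_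
  rotate_left
  · intro x j k
    exact hD.memF x j _ (f k).2
  · intro δ j k
    exact hhom0 δ.1 δ.2 _ (e δ j).2 _ (hFG (f k).2)
  · intro δ
    exact (hliδ δ.1 δ.2).comp (e δ) (e δ).injective
  · intro x j
    exact pos_dot (hD.nonneg x j) (hD.ne x j) hs hξ
  · intro δ j
    exact pos_dot (hhomnn _) (hhomne δ.1 δ.2 _ (e δ j).2) hs hξ
  · intro x t ht
    set k : Fin (n + 1) → ℝ := ∑ j, t j • D x j with hk
    have hk0 : ∀ i, 0 ≤ k i := by
      intro i
      rw [hk, Finset.sum_apply]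
      exact Finset.sum_nonneg fun j _ => mul_nonneg (ht j).le (hD.nonneg x j i)
    have hkd : ∀ u, k ⬝ᵥ hv 1 (rV V u) = ∑ j, t j * (D x j ⬝ᵥ hv 1 (rV V u)) := by
      intro u
      rw [hk, sum_dotProduct]
      apply Finset.sum_congr rfl
      intro j _
      rw [smul_dotProduct, smul_eq_mul]
    have hku : ∀ u, 0 ≤ k ⬝ᵥ hv 1 (rV V u) := by
      intro u
      rw [hkd]
      exact Finset.sum_nonneg fun j _ => mul_nonneg (ht j).le (hD.mem x j u)
    have hkF : ∀ u ∈ F, k ⬝ᵥ hv 1 (rV V u) = 0 := by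
      intro u hu
      rw [hkd]
      apply Finset.sum_eq_zero
      intro j _
      rw [hD.memF x j u hu, mul_zero]
    have hkG : ∀ u ∈ G, k ⬝ᵥ hv 1 (rV V u) = 0 := by
      intro u hu
      have h1 := htau u hu
      refine Submodule.span_induction (p := fun z _ => k ⬝ᵥ z = 0) ?_ ?_ ?_ ?_ h1
      · rintro z ⟨w, hw, rfl⟩
        exact hkF w hw
      · exact dotProduct_zero k
      · intro z z' _ _ hz hz'
        rw [dotProduct_add, hz, hz', add_zero]
      · intro r z _ hz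
        rw [dotProduct_smul, hz, smul_zero]
    obtain ⟨δ, hδ, t', ht', hkt⟩ := hS.cover (fun i => k i.succ) (fun i => hk0 _) (by
      intro w hw u
      have h1 := hkG w hw
      have h2 := hku u
      rw [dot_hv] at h1 h2
      simp only [rV] at h1 h2
      linarith)
    refine ⟨⟨δ, hδ⟩, fun j => t' (e ⟨δ, hδ⟩ j).1, fun j => ht' _ (e ⟨δ, hδ⟩ j).2, ?_⟩
    rw [hsum ⟨δ, hδ⟩ t']
    funext i
    rw [Finset.sum_apply]
    refine Fin.cases ?_ (fun i => ?_) i
    · have h1 := hkF v₀ hv₀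
      rw [dot_hv] at h1
      simp only [Pi.smul_apply, smul_eq_mul, hom_zero]
      have h2 : k 0 = ∑ i, k i.succ * rV V v₀ i := by linarith
      rw [h2]
      simp only [hkt, Finset.sum_mul]
      rw [Finset.sum_comm]
      apply Finset.sum_congr rfl
      intro a ha
      rw [hordG δ hδ a ha v₀ (hFG hv₀)]
      push_cast
      rw [Finset.mul_sum]
      apply Finset.sum_congr rfl
      intro i _
      rw [rV]
      ring
    · simp only [Pi.smul_apply, smul_eq_mul, hom_succ]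
      exact hkt i
  · intro δ t ht
    set k : Fin (n + 1) → ℝ := ∑ j, t j • D' δ j with hk
    have hkd : ∀ u, k ⬝ᵥ hv 1 (rV V u) = ∑ j, t j * (D' δ j ⬝ᵥ hv 1 (rV V u)) := by
      intro u
      rw [hk, sum_dotProduct]
      apply Finset.sum_congr rfl
      intro j _
      rw [smul_dotProduct, smul_eq_mul]
    have hku : ∀ u, 0 ≤ k ⬝ᵥ hv 1 (rV V u) := by
      intro u
      rw [hkd]
      exact Finset.sum_nonneg fun j _ => mul_nonneg (ht j).le (hhom1 δ.1 δ.2 _ (e δ j).2 u)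
    have hkF : ∀ u ∈ F, k ⬝ᵥ hv 1 (rV V u) = 0 := by
      intro u hu
      rw [hkd]
      apply Finset.sum_eq_zero
      intro j _
      rw [hhom0 δ.1 δ.2 _ (e δ j).2 u (hFG hu), mul_zero]
    -- positivity
    have hpos : ∃ j, 0 < ordI V (e δ j).1 := by
      by_contra hcon
      push Not at hcon
      have h0 : ∀ j, ordI V (e δ j).1 = 0 := fun j => Nat.le_zero.1 (hcon j)
      -- too many independent vectors
      have h1 : LinearIndependent ℝ (Sum.elim (fun (a : δ.1) (i : Fin n) => (a.1 i : ℝ))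
          (fun v : {v // v ∈ F} => rV V v)) := by
        refine li_orth _ _ (hS.indep δ.1 δ.2) hli ?_
        rintro ⟨a, ha⟩ ⟨w, hw⟩
        obtain ⟨j, hj⟩ := (e δ).surjective ⟨a, ha⟩
        have h3 := h0 j
        rw [hj] at h3
        have h4 := hordG δ.1 δ.2 a ha w (hFG hw)
        rw [show ordI V a = 0 from h3] at h4
        have h5 : ((∑ i, a i * V w i : ℕ) : ℝ) = 0 := by rw [← h4]; simp
        push_cast at h5
        exact h5
      have h2 := h1.fintype_card_le_finrank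
      rw [Fintype.card_sum, Fintype.card_coe, Fintype.card_coe, hcardS δ.1 δ.2] at h2
      simp at h2
      omega
    obtain ⟨j₀, hj₀⟩ := hpos
    have hk0 : 0 < k 0 := by
      rw [hk, Finset.sum_apply]
      refine Finset.sum_pos' (fun j _ => mul_nonneg (ht j).le (hhomnn _ _))
        ⟨j₀, Finset.mem_univ _, mul_pos (ht j₀) ?_⟩
      change (0 : ℝ) < hom V (e δ j₀).1 0
      rw [hom_zero]
      exact_mod_cast hj₀
    obtain ⟨x, t', ht', hkt⟩ := hD.cover k hku hkF hk0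
    exact ⟨x, t', ht', hkt⟩
  · intro δ δ' hne t t' ht ht' heq
    -- extend the coefficients
    have hext : ∀ (δ : {δ // δ ∈ S}) (t : Fin ℓ → ℝ), (∀ j, 0 < t j) →
        ∃ T : (Fin n → ℕ) → ℝ, (∀ a ∈ δ.1, 0 < T a) ∧
          ∑ j, t j • D' δ j = ∑ a ∈ δ.1, T a • hom V a := by
      intro δ t ht
      refine ⟨fun a => if h : a ∈ δ.1 then t ((e δ).symm ⟨a, h⟩) else 0, ?_, ?_⟩
      · intro a ha
        simp only [dif_pos ha]
        exact ht _
      · rw [← hsum δ]
        apply Finset.sum_congr rfl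
        intro j _
        simp only [dif_pos (e δ j).2, Subtype.coe_eta, Equiv.symm_apply_apply]
        rfl
    obtain ⟨T, hT, hT'⟩ := hext δ t ht
    obtain ⟨T2, hT2, hT2'⟩ := hext δ' t' ht'
    obtain ⟨i, hi⟩ := hS.disj δ.1 δ.2 δ'.1 δ'.2 (fun h => hne (Subtype.ext h)) T T2 hT hT2
    apply hi
    rw [hT', hT2'] at heq
    have h1 := congrFun heq i.succ
    simpa only [Finset.sum_apply, Pi.smul_apply, smul_eq_mul, hom_succ] using h1
  -- the lattice part
  have hFne : (ex V F).Nonempty := ⟨V v₀, Finset.mem_image_of_mem _ hv₀⟩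
  have hmult : ∀ δ : {δ // δ ∈ S},
      (mult ((fun (a : Fin n → ℕ) (i : Fin n) => (a i : ℤ)) '' (δ.1 : Set (Fin n → ℕ))) : ℝ) =
        nvol (ex V F) * adet (Sum.elim (D' δ) b') := by
    intro δ
    have hL := Pool.Agent.helper68.DL.lattice_duality (ℓ := ℓ) (m := F.card) (M := n + 1) hℓ
      (fun j => homZ V (e δ j).1) (fun k => Fin.cons (-1) (fun i => (V (f k).1 i : ℤ))) ?_ ?_ ?_ b'
      ?_
    · have e1 : Set.range (fun j => homZ V (e δ j).1) =
          (fun a => (Fin.cons (∑ i, a i * (V v₀ i : ℤ)) a : Fin (n + 1) → ℤ)) ''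
            ((fun (a : Fin n → ℕ) (i : Fin n) => (a i : ℤ)) '' (δ.1 : Set (Fin n → ℕ))) := by
        ext z
        simp only [Set.mem_range, Set.mem_image, Finset.mem_coe, exists_exists_and_eq_and]
        constructor
        · rintro ⟨j, rfl⟩
          refine ⟨_, (e δ j).2, ?_⟩
          rw [homZ, hordG δ.1 δ.2 _ (e δ j).2 v₀ (hFG hv₀)]
          push_cast
          rfl
        · rintro ⟨a, ha, rfl⟩
          refine ⟨(e δ).symm ⟨a, ha⟩, ?_⟩
          rw [Equiv.apply_symm_apply, homZ, hordG δ.1 δ.2 _ ha v₀ (hFG hv₀)]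
          push_cast
          rfl
      have e2 : Set.range (fun k => (Fin.cons (-1) (fun i => (V (f k).1 i : ℤ)) :
          Fin (n + 1) → ℤ)) = {x : Fin (n + 1) → ℤ | ∃ v ∈ ex V F,
            x = Fin.cons (-1) (fun i => (v i : ℤ))} := by
        ext z
        simp only [Set.mem_range, Set.mem_ofPred_eq, ex, Finset.mem_image, exists_exists_and_eq_and]
        constructor
        · rintro ⟨k, rfl⟩
          exact ⟨_, (f k).2, rfl⟩
        · rintro ⟨w, hw, rfl⟩
          exact ⟨f.symm ⟨w, hw⟩, by rw [Equiv.apply_symm_apply]⟩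
      rw [e1, Pool.Agent.helper68.DL.mult_cons, e2, ← Pool.Agent.helper68.DL.nvol_eq _ hFne] at hL
      rw [hL]
      congr 2
      funext z
      rcases z with z | z
      · funext i
        exact homZ_cast _ _
      · rfl
    · intro j k
      rw [Fin.sum_univ_succ]
      simp only [homZ, Fin.cons_zero, Fin.cons_succ]
      rw [hordG δ.1 δ.2 _ (e δ j).2 _ (hFG (f k).2)]
      push_cast
      ring
    · apply li_int
      have h1 := (hliδ δ.1 δ.2).comp (e δ) (e δ).injective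
      convert h1 using 1
      funext j i
      exact homZ_cast _ _
    · apply li_int
      let π : (Fin (n + 1) → ℝ) →ₗ[ℝ] (Fin n → ℝ) := LinearMap.funLeft ℝ ℝ Fin.succ
      apply LinearIndependent.of_comp π
      have h1 := hli.comp f f.injective
      convert h1 using 1
      funext k i
      simp [π, LinearMap.funLeft, rV]
    · intro k k'
      have h1 := hb' k k'
      rw [← h1, dotProduct]
      apply Finset.sum_congr rfl
      intro i _
      congr 1
      refine Fin.cases ?_ (fun j => ?_) i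
      · simp [v, hv]
      · simp [v, hv, rV]
  rw [hval] at hmain
  rw [hmain, Finset.mul_sum, jayI, ← Finset.sum_coe_sort S]
  apply Finset.sum_congr rfl
  intro δ _
  rw [hmult δ, mul_div_assoc]
  congr 2
  rw [← Finset.prod_coe_sort δ.1, ← Equiv.prod_comp (e δ)]
  apply Finset.prod_congr rfl
  intro j _
  rw [dot_cons]
  rfl


theorem face_val {n : ℕ} (hn : 0 < n) {ι : Type} [Fintype ι] [DecidableEq ι]
    {V : ι → Fin n →₀ ℕ} (hV : Function.Injective V)
    (hconv : ∀ j : Fin n, ∃ i, 0 < V i j ∧ ∀ j', j' ≠ j → V i j' = 0) (hV0 : ∀ i, V i ≠ 0)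
    (G : Finset ι) (hG : G ∈ facesI V) (S : Finset (Finset (Fin n → ℕ))) (hS : SubI V G S)
    (F : Finset ι) (hFG : F ⊆ G) (hcard : F.card = fdim (ex V G) + 1)
    (hli : LinearIndependent ℝ (fun v : {v // v ∈ F} => rV V v))
    (htau : ∀ u ∈ G, hv 1 (rV V u) ∈
      Submodule.span ℝ ((fun v => hv 1 (rV V v)) '' (F : Set ι)))
    (s : ℝ) (ξ : Fin n → ℝ) (hs : 0 < s) (hξ : ∀ i, 0 < ξ i) (R : ℝ) {ℓ : ℕ}
    (hℓ : ℓ + F.card = n + 1) (b : ι → Fin (n + 1) → ℝ)
    (hb : ∀ u ∈ F, ∀ v ∈ F, b u ⬝ᵥ hv 1 (rV V v) = if u = v then 1 else 0)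
    (hval : ∀ (β : Type) (_ : Fintype β) (D : β → Fin ℓ → Fin (n + 1) → ℝ),
      (∀ x j, (∀ u, 0 ≤ D x j ⬝ᵥ hv 1 (rV V u)) ∧ (∀ v ∈ F, D x j ⬝ᵥ hv 1 (rV V v) = 0) ∧
        (∀ i, 0 ≤ D x j i) ∧ D x j ≠ 0) →
      (∀ x, LinearIndependent ℝ (D x)) →
      (∀ k : Fin (n + 1) → ℝ, (∀ u, 0 ≤ k ⬝ᵥ hv 1 (rV V u)) →
        (∀ v ∈ F, k ⬝ᵥ hv 1 (rV V v) = 0) → 0 < k 0 →
        ∃ x, ∃ t : Fin ℓ → ℝ, (∀ j, 0 ≤ t j) ∧ k = ∑ j, t j • D x j) →
      (∀ x x', x ≠ x' → ∀ t t' : Fin ℓ → ℝ, (∀ j, 0 < t j) → (∀ j, 0 < t' j) →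
        ∑ j, t j • D x j ≠ ∑ j, t' j • D x' j) →
      ∑ x, adet (Sum.elim (D x) (fun v : {v // v ∈ F} => b v)) /
          ∏ j, (D x j ⬝ᵥ (Fin.cons s ξ : Fin (n + 1) → ℝ)) = R) :
    jayI V S s ξ = nvol (ex V F) * R := by
  classical
  have hcardS : ∀ δ ∈ S, δ.card = ℓ := by
    intro δ hδ
    have := hS.card δ hδ
    omega
  have hFne : F.Nonempty := by
    rw [← Finset.card_pos]
    omega
  obtain ⟨v₀, hv₀⟩ := hFne
  have hFn : F.card ≤ n := by
    have h1 := hli.fintype_card_le_finrank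
    simpa using h1
  have hℓ1 : 1 ≤ ℓ := by omega
  -- enumerations
  let f : Fin F.card ≃ {v // v ∈ F} := F.equivFin.symm
  let e : ∀ δ : {δ // δ ∈ S}, Fin ℓ ≃ {a // a ∈ δ.1} := fun δ =>
    (Finset.equivFinOfCardEq (hcardS δ.1 δ.2)).symm
  let D' : {δ // δ ∈ S} → Fin ℓ → Fin (n + 1) → ℝ := fun δ j => hom V (e δ j).1
  let v : Fin F.card → Fin (n + 1) → ℝ := fun k => hv 1 (rV V (f k).1)
  let b' : Fin F.card → Fin (n + 1) → ℝ := fun k => b (f k).1
  let y : Fin (n + 1) → ℝ := Fin.cons s ξ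
  have hb' : ∀ k k', b' k ⬝ᵥ v k' = if k = k' then 1 else 0 := by
    intro k k'
    rw [hb _ (f k).2 _ (f k').2]
    by_cases h : k = k'
    · rw [if_pos h, if_pos (by rw [h])]
    · rw [if_neg h, if_neg]
      intro h2
      exact h (f.injective (Subtype.ext h2))
  -- orthogonality
  have hordG : ∀ δ ∈ S, ∀ a ∈ δ, ∀ u ∈ G, ordI V a = ∑ i, a i * V u i := fun δ hδ a ha u hu =>
    ord_eq (hS.face δ hδ a ha) hu
  have hhom0 : ∀ δ ∈ S, ∀ a ∈ δ, ∀ u ∈ G, hom V a ⬝ᵥ hv 1 (rV V u) = 0 := by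
    intro δ hδ a ha u hu
    rw [hom_dot, hordG δ hδ a ha u hu, sub_self]
  have hhom1 : ∀ δ ∈ S, ∀ a ∈ δ, ∀ u, 0 ≤ hom V a ⬝ᵥ hv 1 (rV V u) := by
    intro δ hδ a ha u
    rw [hom_dot, hordG δ hδ a ha v₀ (hFG hv₀), sub_nonneg]
    exact_mod_cast hS.face δ hδ a ha v₀ (hFG hv₀) u
  have hane : ∀ δ ∈ S, ∀ a ∈ δ, a ≠ 0 := by
    rintro δ hδ a ha rfl
    have := (hS.indep δ hδ).ne_zero ⟨0, ha⟩
    apply this
    ext i
    simp
  have hliδ : ∀ δ ∈ S, LinearIndependent ℝ (fun a : δ => hom V a.1) := by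
    intro δ hδ
    have h1 := hS.indep δ hδ
    let π : (Fin (n + 1) → ℝ) →ₗ[ℝ] (Fin n → ℝ) := LinearMap.funLeft ℝ ℝ Fin.succ
    apply LinearIndependent.of_comp π
    exact h1
  have hhomne : ∀ δ ∈ S, ∀ a ∈ δ, hom V a ≠ 0 := by
    intro δ hδ a ha h
    apply hane δ hδ a ha
    ext i
    have h1 := congrFun h i.succ
    rw [hom_succ] at h1
    change (a i : ℝ) = 0 at h1
    change a i = 0
    exact_mod_cast h1
  have hhomnn : ∀ a i, 0 ≤ hom V a i := by
    intro a i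
    refine Fin.cases ?_ (fun j => ?_) i
    · rw [hom_zero]
      positivity
    · rw [hom_succ]
      positivity
  -- sums over the enumeration
  have hsum : ∀ (δ : {δ // δ ∈ S}) (t : (Fin n → ℕ) → ℝ),
      ∑ j, t (e δ j).1 • hom V (e δ j).1 = ∑ a ∈ δ.1, t a • hom V a := by
    intro δ t
    rw [← Finset.sum_coe_sort δ.1, ← Equiv.sum_comp (e δ)]
  have hmain := hval {δ // δ ∈ S} inferInstance D' ?_ ?_ ?_ ?_
  rotate_left
  · intro δ j
    exact ⟨fun u => hhom1 δ.1 δ.2 _ (e δ j).2 u, fun w hw => hhom0 δ.1 δ.2 _ (e δ j).2 _ (hFG hw),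
      fun i => hhomnn _ i, hhomne δ.1 δ.2 _ (e δ j).2⟩
  · intro δ
    exact (hliδ δ.1 δ.2).comp (e δ) (e δ).injective
  · intro k hku hkF hkpos
    have hkG : ∀ u ∈ G, k ⬝ᵥ hv 1 (rV V u) = 0 := by
      intro u hu
      have h1 := htau u hu
      refine Submodule.span_induction (p := fun z _ => k ⬝ᵥ z = 0) ?_ ?_ ?_ ?_ h1
      · rintro z ⟨w, hw, rfl⟩
        exact hkF w hw
      · exact dotProduct_zero k
      · intro z z' _ _ hz hz'
        rw [dotProduct_add, hz, hz', add_zero]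
      · intro r z _ hz
        rw [dotProduct_smul, hz, smul_zero]
    have hk0 : ∀ i : Fin n, 0 ≤ k i.succ := by
      intro j
      obtain ⟨i, hi, hi'⟩ := hconv j
      have h1 := hku i
      rw [dot_hv, Finset.sum_eq_single j (fun j' _ hj' => by
        rw [rV, hi' j' hj']
        simp) (fun h => absurd (Finset.mem_univ _) h)] at h1
      have h2 : (0 : ℝ) < rV V i j := by
        rw [rV]
        exact_mod_cast hi
      have h3 : 0 ≤ k j.succ * rV V i j := by linarith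
      exact nonneg_of_mul_nonneg_left h3 h2
    obtain ⟨δ, hδ, t', ht', hkt⟩ := hS.cover (fun i => k i.succ) hk0 (by
      intro w hw u
      have h1 := hkG w hw
      have h2 := hku u
      rw [dot_hv] at h1 h2
      simp only [rV] at h1 h2
      linarith)
    refine ⟨⟨δ, hδ⟩, fun j => t' (e ⟨δ, hδ⟩ j).1, fun j => ht' _ (e ⟨δ, hδ⟩ j).2, ?_⟩
    rw [hsum ⟨δ, hδ⟩ t']
    funext i
    rw [Finset.sum_apply]
    refine Fin.cases ?_ (fun i => ?_) i
    · have h1 := hkF v₀ hv₀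
      rw [dot_hv] at h1
      simp only [Pi.smul_apply, smul_eq_mul, hom_zero]
      have h2 : k 0 = ∑ i, k i.succ * rV V v₀ i := by linarith
      rw [h2]
      simp only [hkt, Finset.sum_mul]
      rw [Finset.sum_comm]
      apply Finset.sum_congr rfl
      intro a ha
      rw [hordG δ hδ a ha v₀ (hFG hv₀)]
      push_cast
      rw [Finset.mul_sum]
      apply Finset.sum_congr rfl
      intro i _
      rw [rV]
      ring
    · simp only [Pi.smul_apply, smul_eq_mul, hom_succ]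
      exact hkt i
  · intro δ δ' hne t t' ht ht' heq
    -- extend the coefficients
    have hext : ∀ (δ : {δ // δ ∈ S}) (t : Fin ℓ → ℝ), (∀ j, 0 < t j) →
        ∃ T : (Fin n → ℕ) → ℝ, (∀ a ∈ δ.1, 0 < T a) ∧
          ∑ j, t j • D' δ j = ∑ a ∈ δ.1, T a • hom V a := by
      intro δ t ht
      refine ⟨fun a => if h : a ∈ δ.1 then t ((e δ).symm ⟨a, h⟩) else 0, ?_, ?_⟩
      · intro a ha
        simp only [dif_pos ha]
        exact ht _
      · rw [← hsum δ]
        apply Finset.sum_congr rfl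
        intro j _
        simp only [dif_pos (e δ j).2, Subtype.coe_eta, Equiv.symm_apply_apply]
        rfl
    obtain ⟨T, hT, hT'⟩ := hext δ t ht
    obtain ⟨T2, hT2, hT2'⟩ := hext δ' t' ht'
    obtain ⟨i, hi⟩ := hS.disj δ.1 δ.2 δ'.1 δ'.2 (fun h => hne (Subtype.ext h)) T T2 hT hT2
    apply hi
    rw [hT', hT2'] at heq
    have h1 := congrFun heq i.succ
    simpa only [Finset.sum_apply, Pi.smul_apply, smul_eq_mul, hom_succ] using h1
  -- the lattice part
  have hFne : (ex V F).Nonempty := ⟨V v₀, Finset.mem_image_of_mem _ hv₀⟩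
  have hmult : ∀ δ : {δ // δ ∈ S},
      (mult ((fun (a : Fin n → ℕ) (i : Fin n) => (a i : ℤ)) '' (δ.1 : Set (Fin n → ℕ))) : ℝ) =
        nvol (ex V F) * adet (Sum.elim (D' δ) b') := by
    intro δ
    have hL := Pool.Agent.helper68.DL.lattice_duality (ℓ := ℓ) (m := F.card) (M := n + 1) hℓ
      (fun j => homZ V (e δ j).1) (fun k => Fin.cons (-1) (fun i => (V (f k).1 i : ℤ))) ?_ ?_ ?_ b'
      ?_
    · have e1 : Set.range (fun j => homZ V (e δ j).1) =
          (fun a => (Fin.cons (∑ i, a i * (V v₀ i : ℤ)) a : Fin (n + 1) → ℤ)) ''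
            ((fun (a : Fin n → ℕ) (i : Fin n) => (a i : ℤ)) '' (δ.1 : Set (Fin n → ℕ))) := by
        ext z
        simp only [Set.mem_range, Set.mem_image, Finset.mem_coe, exists_exists_and_eq_and]
        constructor
        · rintro ⟨j, rfl⟩
          refine ⟨_, (e δ j).2, ?_⟩
          rw [homZ, hordG δ.1 δ.2 _ (e δ j).2 v₀ (hFG hv₀)]
          push_cast
          rfl
        · rintro ⟨a, ha, rfl⟩
          refine ⟨(e δ).symm ⟨a, ha⟩, ?_⟩
          rw [Equiv.apply_symm_apply, homZ, hordG δ.1 δ.2 _ ha v₀ (hFG hv₀)]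
          push_cast
          rfl
      have e2 : Set.range (fun k => (Fin.cons (-1) (fun i => (V (f k).1 i : ℤ)) :
          Fin (n + 1) → ℤ)) = {x : Fin (n + 1) → ℤ | ∃ v ∈ ex V F,
            x = Fin.cons (-1) (fun i => (v i : ℤ))} := by
        ext z
        simp only [Set.mem_range, Set.mem_ofPred_eq, ex, Finset.mem_image, exists_exists_and_eq_and]
        constructor
        · rintro ⟨k, rfl⟩
          exact ⟨_, (f k).2, rfl⟩
        · rintro ⟨w, hw, rfl⟩
          exact ⟨f.symm ⟨w, hw⟩, by rw [Equiv.apply_symm_apply]⟩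
      rw [e1, Pool.Agent.helper68.DL.mult_cons, e2, ← Pool.Agent.helper68.DL.nvol_eq _ hFne] at hL
      rw [hL]
      congr 2
      funext z
      rcases z with z | z
      · funext i
        exact homZ_cast _ _
      · rfl
    · intro j k
      rw [Fin.sum_univ_succ]
      simp only [homZ, Fin.cons_zero, Fin.cons_succ]
      rw [hordG δ.1 δ.2 _ (e δ j).2 _ (hFG (f k).2)]
      push_cast
      ring
    · apply li_int
      have h1 := (hliδ δ.1 δ.2).comp (e δ) (e δ).injective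
      convert h1 using 1
      funext j i
      exact homZ_cast _ _
    · apply li_int
      let π : (Fin (n + 1) → ℝ) →ₗ[ℝ] (Fin n → ℝ) := LinearMap.funLeft ℝ ℝ Fin.succ
      apply LinearIndependent.of_comp π
      have h1 := hli.comp f f.injective
      convert h1 using 1
      funext k i
      simp [π, LinearMap.funLeft, rV]
    · intro k k'
      have h1 := hb' k k'
      rw [← h1, dotProduct]
      apply Finset.sum_congr rfl
      intro i _
      congr 1
      refine Fin.cases ?_ (fun j => ?_) i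
      · simp [v, hv]
      · simp [v, hv, rV]
  rw [← hmain, Finset.mul_sum, jayI, ← Finset.sum_coe_sort S]
  apply Finset.sum_congr rfl
  intro δ _
  have hre : adet (Sum.elim (D' δ) b') = adet (Sum.elim (D' δ) (fun v : {v // v ∈ F} => b v)) := by
    rw [← adet_reindex (Equiv.sumCongr (Equiv.refl (Fin ℓ)) f)]
    congr 1
    funext z
    rcases z with z | z <;> rfl
  rw [hmult δ, mul_div_assoc, hre]
  congr 2
  rw [← Finset.prod_coe_sort δ.1, ← Equiv.prod_comp (e δ)]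
  apply Finset.prod_congr rfl
  intro j _
  rw [dot_cons]
  rfl

end Pool.Agent.helper24.DL
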